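import Pool.Agent.Helper45.BD.Tan
import Pool.Graph.R_seed8.Helper226.Dim

/-!
# Common zeros of forms on a cone: `S_INT`
-/

set_option autoImplicit false
set_option linter.unusedSectionVars false

namespace Pool.Agent.Helper45.BD

open MvPolynomial Pool.Agent.Helper10.BD Pool.Agent.R867.Mov Pool.Agent.R867.J
  Pool.Agent.Helper4.QH

universe u v w

section chain
variable {K : Type u} [Field K] {Ω : Type v} [Field Ω] [Algebra K Ω] {V : Type} [Fintype V]

/-- The chain rule. -/
theorem chain_rule (D : Derivation K Ω Ω) (x : V → Ω) (f : MvPolynomial V K) :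
    D (aeval x f) = ∑ v, aeval x (pderiv v f) * D (x v) := by
  classical
  induction f using MvPolynomial.induction_on with
  | C a =>
    rw [aeval_C, Derivation.map_algebraMap]
    symm
    apply Finset.sum_eq_zero
    intro v _
    rw [pderiv_C, map_zero, zero_mul]
  | add p q hp hq =>
    rw [map_add, map_add, hp, hq, ← Finset.sum_add_distrib]
    refine Finset.sum_congr rfl fun v _ => ?_
    rw [map_add, map_add, add_mul]
  | mul_X p j hp =>
    rw [map_mul, aeval_X, Derivation.leibniz, hp, smul_eq_mul, smul_eq_mul, Finset.mul_sum]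
    have h : ∀ v, aeval x (pderiv v (p * X j)) * D (x v) =
        x j * (aeval x (pderiv v p) * D (x v)) + (if v = j then aeval x p * D (x j) else 0) := by
      intro v
      rw [Derivation.leibniz, pderiv_X, smul_eq_mul, smul_eq_mul, map_add, map_mul, map_mul,
        aeval_X]
      by_cases hv : v = j
      · subst hv
        rw [Pi.single_eq_same, map_one, if_pos rfl]
        ring
      · rw [Pi.single_eq_of_ne (fun h => hv h.symm), map_zero, if_neg hv]
        ring
    rw [Finset.sum_congr rfl fun v _ => h v, Finset.sum_add_distrib,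
      Finset.sum_ite_eq' Finset.univ j, if_pos (Finset.mem_univ j)]
    ring

end chain

/-- A chain of primes gives a prime quotient of large dimension. -/
theorem exists_prime {R : Type u} [CommRing R] {r : ℕ} (h : (r : WithBot ℕ∞) ≤ ringKrullDim R) :
    ∃ Q : Ideal R, Q.IsPrime ∧ (r : WithBot ℕ∞) ≤ ringKrullDim (R ⧸ Q) := by
  obtain ⟨l, hl⟩ := Order.le_krullDim_iff.1 h
  refine ⟨l.head.asIdeal, l.head.2, ?_⟩
  have hle : ∀ i, l.head ≤ l i := fun i => LTSeries.head_le l i
  have hpr : ∀ i, ((l i).asIdeal.map (Ideal.Quotient.mk l.head.asIdeal)).IsPrime := fun i =>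
    Ideal.isPrime_map_quotientMk_of_isPrime (hle i)
  have hcm : ∀ i, ((l i).asIdeal.map (Ideal.Quotient.mk l.head.asIdeal)).comap
      (Ideal.Quotient.mk l.head.asIdeal) = (l i).asIdeal := by
    intro i
    rw [Ideal.comap_map_mk]
    exact hle i
  refine Order.le_krullDim_iff.2 ⟨⟨l.length, fun i => ⟨_, hpr i⟩, fun i => ?_⟩, hl⟩
  have h1 := l.step i
  have h1' : (l i.castSucc).asIdeal < (l i.succ).asIdeal := h1
  refine lt_of_le_of_ne (Ideal.map_mono h1'.le) ?_
  intro h2
  have h3 : (l i.castSucc).asIdeal.map (Ideal.Quotient.mk l.head.asIdeal) =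
      (l i.succ).asIdeal.map (Ideal.Quotient.mk l.head.asIdeal) := h2
  have h4 := congrArg (Ideal.comap (Ideal.Quotient.mk l.head.asIdeal)) h3
  rw [hcm, hcm] at h4
  exact h1'.ne h4

/-- The dimension of a point is at most the number of the variables of a normalisation. -/
theorem finrank_le {K : Type u} [Field K] [CharZero K] {Ω : Type u} [Field Ω] [Algebra K Ω]
    {V : Type} [Fintype V] (p : V → Ω) {A : Type u} [CommRing A] [Algebra K A] (ι : A →ₐ[K] Ω)
    (a : V → A) (ha : ∀ v, ι (a v) = p v) {s : ℕ} (g : MvPolynomial (Fin s) K →ₐ[K] A)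
    (hg : g.IsIntegral) : Module.finrank Ω (Tan K p) ≤ s := by
  have hc : CharZero Ω := charZero_of_injective_algebraMap (algebraMap K Ω).injective
  obtain ⟨z, hz⟩ : ∃ z : Fin s → Ω, z = fun i => ι (g (X i)) := ⟨_, rfl⟩
  have h1 := rank_le (evD K p) (ev (K := K) z)
  have hmem : ∀ f : MvPolynomial (Fin s) K, ι (g f) ∈ Algebra.adjoin K (Set.range z) := by
    intro f
    have h2 : ι (g f) = aeval z f := by
      have h3 : (ι.comp g) = aeval z := by
        apply MvPolynomial.algHom_ext
        intro i
        rw [aeval_X, hz]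
        rfl
      exact DFunLike.congr_fun h3 f
    rw [h2, Algebra.adjoin_range_eq_range_aeval]
    exact ⟨f, rfl⟩
  have hcl : ∀ v, p v ∈ cl K (Set.range z) := by
    intro v
    obtain ⟨P, hP, hP0⟩ := hg (a v)
    let θ : MvPolynomial (Fin s) K →+* Algebra.adjoin K (Set.range z) :=
      { toFun := fun f => ⟨ι (g f), hmem f⟩
        map_one' := by
          apply Subtype.ext
          simp
        map_mul' := fun x y => by
          apply Subtype.ext
          simp
        map_zero' := by
          apply Subtype.ext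
          simp
        map_add' := fun x y => by
          apply Subtype.ext
          simp }
    have h2 : IsIntegral (Algebra.adjoin K (Set.range z)) (p v) := by
      refine ⟨P.map θ, hP.map θ, ?_⟩
      rw [Polynomial.eval₂_map]
      have h3 := congrArg ι hP0
      rw [map_zero] at h3
      rw [← h3, ← ha v]
      have h4 := Polynomial.hom_eval₂ P (g : MvPolynomial (Fin s) K →+* A) (ι : A →+* Ω) (a v)
      exact h4.symm
    exact h2.isAlgebraic
  have hker : Submodule.map (evD K p) (LinearMap.ker (ev (K := K) z)) = ⊥ := by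
    rw [eq_bot_iff]
    rintro _ ⟨D, hD, rfl⟩
    have hD' : ev (K := K) z D = 0 := hD
    rw [Submodule.mem_bot]
    funext v
    refine der_cl D (S := Set.range z) ?_ (hcl v)
    rintro _ ⟨i, rfl⟩
    exact congrFun hD' i
  rw [hker, finrank_bot, zero_add, Module.finrank_fin_fun] at h1
  exact h1

/-- The height of a maximal ideal is at least the number of the variables. -/
theorem le_height {K : Type u} [Field K] {A : Type u} [CommRing A] [IsDomain A]
    [Algebra K A] [Algebra.FiniteType K A] {s : ℕ} (g : MvPolynomial (Fin s) K →ₐ[K] A)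
    (ginj : Function.Injective g) (gint : g.IsIntegral) (m : Ideal A) (hm : m.IsMaximal) :
    (s : ℕ∞) ≤ m.height := by
  let := g.toRingHom.toAlgebra
  have hint : Algebra.IsIntegral (MvPolynomial (Fin s) K) A := ⟨gint⟩
  have hfs : FaithfulSMul (MvPolynomial (Fin s) K) A :=
    (faithfulSMul_iff_algebraMap_injective _ _).2 ginj
  have hN : IsNoetherianRing A := Algebra.FiniteType.isNoetherianRing K A
  let p : Ideal (MvPolynomial (Fin s) K) := m.comap (algebraMap _ A)
  have hp : p.IsMaximal := Ideal.isMaximal_comap_of_isIntegral_of_isMaximal m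
  have hlo : m.LiesOver p := ⟨rfl⟩
  have h1 := Ideal.height_eq_height_add_of_liesOver_of_hasGoingDown p m
  have h2 : p.height ≤ m.height := by
    rw [h1]
    exact le_self_add
  rwa [Pool.Agent.Helper226.mvPolynomial_height K s p hp] at h2

/-- The Krull dimension is at most the number of the variables. -/
theorem dim_le {K : Type u} [Field K] {A : Type u} [CommRing A]
    [Algebra K A] {s : ℕ} (g : MvPolynomial (Fin s) K →ₐ[K] A)
    (gint : g.IsIntegral) : ringKrullDim A ≤ s := by
  let := g.toRingHom.toAlgebra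
  have hint : Algebra.IsIntegral (MvPolynomial (Fin s) K) A := ⟨gint⟩
  have h3 := Pool.Agent.Helper226.ringKrullDim_le_of_isIntegral (MvPolynomial (Fin s) K) A
  rw [MvPolynomial.ringKrullDim_of_isNoetherianRing, ringKrullDim_eq_zero_of_field] at h3
  simpa using h3

theorem arith {x : WithBot ℕ∞} {e : ℕ∞} {D h : ℕ} (hx : 0 ≤ x) (he : e ≤ h)
    (h1 : ((D : ℕ∞) : WithBot ℕ∞) ≤ x + e) : ((D - h : ℕ) : WithBot ℕ∞) ≤ x := by
  induction x using WithBot.recBotCoe with
  | bot => simp at hx
  | coe x =>
    induction x using ENat.recTopCoe with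
    | top =>
      have : ((⊤ : ℕ∞) : WithBot ℕ∞) = ⊤ := rfl
      rw [this]
      exact le_top
    | coe x =>
      have h2 : (D : ℕ∞) ≤ (x : ℕ∞) + e := by exact_mod_cast h1
      have h3 : (D : ℕ∞) ≤ (x : ℕ∞) + h := h2.trans (by gcongr)
      have h4 : D ≤ x + h := by exact_mod_cast h3
      have h5 : D - h ≤ x := by omega
      have h6 : ((D - h : ℕ) : ℕ∞) ≤ (x : ℕ∞) := Nat.cast_le.2 h5
      exact WithBot.coe_le_coe.2 h6

theorem s_INT : S_INT.{u} := by
  intro K _ _ V κ _ _ D Ω _ _ p hp hD g d hd hg
  classical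
  obtain ⟨I, hI⟩ : ∃ I : Ideal (MvPolynomial V K), I = RingHom.ker (aeval p) := ⟨_, rfl⟩
  have hIp : I.IsPrime := by
    rw [hI]
    exact RingHom.ker_isPrime _
  have hmI : ∀ f, f ∈ I ↔ aeval p f = 0 := by
    intro f
    rw [hI, RingHom.mem_ker]
  -- constant terms
  have hcc : ∀ f ∈ I, constantCoeff f = 0 := by
    intro f hf
    have h1 := hp f 0 ((hmI f).1 hf)
    rw [homogeneousComponent_zero, aeval_C] at h1
    rw [constantCoeff_eq]
    exact (algebraMap K Ω).injective (by rw [h1, map_zero])
  let A : Type u := MvPolynomial V K ⧸ I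
  let _ : Algebra.FiniteType K A := inferInstance
  let π : MvPolynomial V K →ₐ[K] A := Ideal.Quotient.mkₐ K I
  have hπs : Function.Surjective π := Ideal.Quotient.mkₐ_surjective K I
  have hπ0 : ∀ f, aeval p f = 0 → π f = 0 := by
    intro f hf
    exact Ideal.Quotient.eq_zero_iff_mem.2 ((hmI f).2 hf)
  let ι : A →ₐ[K] Ω := Ideal.Quotient.liftₐ I (aeval p) (fun f hf => (hmI f).1 hf)
  let ε : A →+* K := Ideal.Quotient.lift I constantCoeff hcc
  have hεs : Function.Surjective ε := by
    intro c
    refine ⟨π (C c), ?_⟩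
    show constantCoeff (C c) = c
    rw [constantCoeff_C]
  have hm : (RingHom.ker ε).IsMaximal := RingHom.ker_isMaximal_of_surjective ε hεs
  obtain ⟨s, G, hGinj, hGint⟩ := exists_integral_inj_algHom_of_fg K A
  have h1 : D ≤ s := hD.trans (finrank_le p ι (fun v => π (X v)) (fun v => by
    show aeval p (X v) = p v
    rw [aeval_X]) G hGint)
  have h2 := le_height G hGinj hGint (RingHom.ker ε) hm
  have hN : IsNoetherianRing A := Algebra.FiniteType.isNoetherianRing K A
  obtain ⟨S, hS⟩ : ∃ S : Set A, S = Set.range fun j => π (g j) := ⟨_, rfl⟩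
  have hSm : S ⊆ RingHom.ker ε := by
    rw [hS]
    rintro _ ⟨j, rfl⟩
    show constantCoeff (g j) = 0
    rw [constantCoeff_eq]
    refine (hg j).coeff_eq_zero ?_
    have := hd j
    simp
    omega
  have hSc : S.encard ≤ (Fintype.card κ : ℕ∞) := by
    rw [hS, ← Set.image_univ]
    refine (Set.encard_image_le _ _).trans ?_
    rw [Set.encard_univ, ENat.card_eq_coe_fintype_card]
  have h3 := Ideal.height_le_ringKrullDim_quotient_add_encard (p := RingHom.ker ε) S hSm
  have hne : Nontrivial (A ⧸ Ideal.span S) := by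
    rw [Ideal.Quotient.nontrivial_iff]
    intro h
    apply hm.ne_top
    rw [eq_top_iff, ← h, Ideal.span_le]
    exact hSm
  have h4 : ((D - Fintype.card κ : ℕ) : WithBot ℕ∞) ≤ ringKrullDim (A ⧸ Ideal.span S) := by
    refine arith ringKrullDim_nonneg_of_nontrivial hSc ?_
    refine le_trans ?_ h3
    have h5 : (D : ℕ∞) ≤ (RingHom.ker ε).height := (Nat.cast_le.2 h1).trans h2
    exact WithBot.coe_le_coe.2 h5
  obtain ⟨Q, hQ, hQr⟩ := exists_prime (R := A ⧸ Ideal.span S) h4
  let B : Type u := (A ⧸ Ideal.span S) ⧸ Q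
  let ψ : A →ₐ[K] B := (Ideal.Quotient.mkₐ K Q).comp (Ideal.Quotient.mkₐ K (Ideal.span S))
  have hψs : Function.Surjective ψ :=
    (Ideal.Quotient.mkₐ_surjective K Q).comp (Ideal.Quotient.mkₐ_surjective K (Ideal.span S))
  let φ : MvPolynomial V K →ₐ[K] B := ψ.comp π
  have hφs : Function.Surjective φ := hψs.comp hπs
  have hBft : Algebra.FiniteType K B := Algebra.FiniteType.of_surjective φ hφs
  have hBd : IsDomain B := Ideal.Quotient.isDomain Q
  obtain ⟨t, H, hHinj, hHint⟩ := exists_integral_inj_algHom_of_fg K B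
  have h5 := hQr.trans (dim_le H hHint)
  have h6 : D - Fintype.card κ ≤ t := by exact_mod_cast h5
  let Ω' : Type u := AlgebraicClosure (FractionRing B)
  let β : B →ₐ[K] Ω' := (IsScalarTower.toAlgHom K (FractionRing B) Ω').comp
    (IsScalarTower.toAlgHom K B (FractionRing B))
  have hβ : Function.Injective β :=
    (algebraMap (FractionRing B) Ω').injective.comp (IsFractionRing.injective B (FractionRing B))
  obtain ⟨q, hq⟩ : ∃ q : V → Ω', q = fun v => β (φ (X v)) := ⟨_, rfl⟩
  have hqe : ∀ f, aeval q f = β (φ f) := by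
    intro f
    have h7 : aeval q = β.comp φ := by
      apply MvPolynomial.algHom_ext
      intro v
      rw [aeval_X, hq]
      rfl
    rw [h7]
    rfl
  refine ⟨Ω', inferInstance, inferInstance, q, inferInstance, ?_, ?_, ?_⟩
  · intro f hf
    rw [hqe]
    show β (ψ (π f)) = 0
    rw [hπ0 f hf, map_zero, map_zero]
  · intro j
    rw [hqe]
    have h7 : (Ideal.Quotient.mkₐ K (Ideal.span S)) (π (g j)) = 0 := by
      refine Ideal.Quotient.eq_zero_iff_mem.2 (Ideal.subset_span ?_)
      rw [hS]
      exact ⟨j, rfl⟩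
    show β ((Ideal.Quotient.mkₐ K Q) ((Ideal.Quotient.mkₐ K (Ideal.span S)) (π (g j)))) = 0
    rw [h7, map_zero, map_zero]
  · have h8 : t ≤ Module.finrank Ω' (Tan K q) := by
      have hZ : ∀ i : Fin t, ∃ Z : MvPolynomial V K, φ Z = H (X i) := fun i => hφs _
      choose Z hZ using hZ
      have hind : AlgebraicIndependent K (fun i : Fin t => β (H (X i))) := by
        have h9 : AlgebraicIndependent K (X : Fin t → MvPolynomial (Fin t) K) :=
          MvPolynomial.algebraicIndependent_X (Fin t) K
        exact h9.map' (f := β.comp H) (hβ.comp hHinj)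
      let T : (V → Ω') →ₗ[Ω'] (Fin t → Ω') :=
        { toFun := fun w i => ∑ v, aeval q (pderiv v (Z i)) * w v
          map_add' := fun w w' => by
            funext i
            show ∑ v, aeval q (pderiv v (Z i)) * (w v + w' v) = _ + _
            rw [← Finset.sum_add_distrib]
            exact Finset.sum_congr rfl fun v _ => mul_add _ _ _
          map_smul' := fun c w => by
            funext i
            show ∑ v, aeval q (pderiv v (Z i)) * (c * w v) =
              c * ∑ v, aeval q (pderiv v (Z i)) * w v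
            rw [Finset.mul_sum]
            exact Finset.sum_congr rfl fun v _ => by ring }
      refine le_finrank (K := K) q T fun w => ?_
      obtain ⟨E, hE⟩ := Pool.Agent.H135R2.VS.exists_der hind w
      refine ⟨E, ?_⟩
      funext i
      show ∑ v, aeval q (pderiv v (Z i)) * E (q v) = w i
      rw [← chain_rule, hqe, hZ, hE]
    omega

end Pool.Agent.Helper45.BD
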