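import Pool.Agent.Helper10.BD.Stm
import Pool.Graph.R_seed8.R867.J.Der

/-!
# Tangent vectors which are values of derivations: `S_BAS`, `S_EXT`, `S_GEN`, `S_CONE`
-/

set_option autoImplicit false
set_option linter.unusedSectionVars false

namespace Pool.Agent.Helper45.BD

open MvPolynomial Pool.Agent.Helper10.BD Pool.Agent.R867.Mov Pool.Agent.R867.J
  Pool.Agent.Helper4.QH

universe u v

section lin

theorem rank_le {L V W₁ W₂ : Type*} [Field L] [AddCommGroup V] [Module L V] [AddCommGroup W₁]
    [Module L W₁] [AddCommGroup W₂] [Module L W₂] [FiniteDimensional L W₁]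
    [FiniteDimensional L W₂] (f : V →ₗ[L] W₁) (g : V →ₗ[L] W₂) :
    Module.finrank L (LinearMap.range f) ≤
      Module.finrank L (Submodule.map f (LinearMap.ker g)) + Module.finrank L W₂ := by
  obtain ⟨R, hR⟩ : ∃ R : Submodule L (W₁ × W₂), R = LinearMap.range (f.prod g) := ⟨_, rfl⟩
  let π : R →ₗ[L] W₂ := (LinearMap.snd L W₁ W₂).domRestrict R
  let ρ : R →ₗ[L] W₁ := (LinearMap.fst L W₁ W₂).domRestrict R
  have h1 := LinearMap.finrank_range_add_finrank_ker π
  have h2 : Module.finrank L (LinearMap.range π) ≤ Module.finrank L W₂ := Submodule.finrank_le _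
  have h3 : Module.finrank L (LinearMap.range f) ≤ Module.finrank L R := by
    have h4 : LinearMap.range f ≤ LinearMap.range ρ := by
      rintro _ ⟨u, rfl⟩
      exact ⟨⟨(f u, g u), by rw [hR]; exact ⟨u, rfl⟩⟩, rfl⟩
    exact (Submodule.finrank_mono h4).trans (LinearMap.finrank_range_le ρ)
  have h5 : Module.finrank L (LinearMap.ker π) ≤
      Module.finrank L (Submodule.map f (LinearMap.ker g)) := by
    have hmem : ∀ z : LinearMap.ker π, ρ z.1 ∈ Submodule.map f (LinearMap.ker g) := by
      rintro ⟨⟨⟨a, b⟩, hz⟩, hz'⟩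
      rw [hR] at hz
      obtain ⟨u, hu⟩ := hz
      have hu1 : f u = a := congrArg Prod.fst hu
      have hu2 : g u = b := congrArg Prod.snd hu
      have hb : b = 0 := hz'
      exact ⟨u, by rw [SetLike.mem_coe, LinearMap.mem_ker, hu2, hb], hu1⟩
    let ψ : LinearMap.ker π →ₗ[L] Submodule.map f (LinearMap.ker g) :=
      LinearMap.codRestrict (Submodule.map f (LinearMap.ker g))
        (ρ.comp (LinearMap.ker π).subtype) hmem
    refine LinearMap.finrank_le_finrank_of_injective (f := ψ) ?_
    rintro ⟨⟨⟨a, b⟩, hz⟩, hz'⟩ ⟨⟨⟨a', b'⟩, hw⟩, hw'⟩ h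
    have ha : a = a' := congrArg Subtype.val h
    have hb : b = 0 := hz'
    have hb' : b' = 0 := hw'
    subst ha hb hb'
    rfl
  omega

end lin

section
variable {K : Type u} [Field K] [CharZero K] {Ω : Type v} [Field Ω] [Algebra K Ω] {V : Type}
  [Finite V]

/-- the evaluation of derivations at a family -/
noncomputable def ev {A : Type*} (x : A → Ω) : Derivation K Ω Ω →ₗ[Ω] (A → Ω) where
  toFun D := fun l => D (x l)
  map_add' _ _ := rfl
  map_smul' _ _ := rfl

/-- independent coordinates from the dimension -/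
theorem exists_ind (x : V → Ω) {s : ℕ}
    (hs : s ≤ Module.finrank Ω (LinearMap.range (ev (K := K) x))) :
    ∃ e : Fin s → V, AlgebraicIndependent K (fun i => x (e i)) := by
  classical
  have hc : CharZero Ω := charZero_of_injective_algebraMap (algebraMap K Ω).injective
  obtain ⟨I, hI⟩ := (AlgebraicIndependent.matroid K Ω).exists_isBasis (Set.range x)
  have hIind : AlgebraicIndepOn K id I := hI.indep
  have hIsub : I ⊆ Set.range x := hI.subset
  have hIcl : Set.range x ⊆ cl K I := by
    rw [← cl_eq]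
    exact hI.subset_closure
  have hfin : I.Finite := (Set.finite_range x).subset hIsub
  have hF : Fintype I := hfin.fintype
  have hker : Submodule.map (ev (K := K) x) (LinearMap.ker (ev (K := K) (fun z : I => (z : Ω)))) =
      ⊥ := by
    rw [eq_bot_iff]
    rintro _ ⟨D, hD, rfl⟩
    have hD' : ev (K := K) (fun z : I => (z : Ω)) D = 0 := hD
    rw [Submodule.mem_bot]
    funext i
    refine der_cl D (S := I) ?_ (hIcl ⟨i, rfl⟩)
    intro z hz
    exact congrFun hD' ⟨z, hz⟩
  have h1 := rank_le (ev (K := K) x) (ev (K := K) (fun z : I => (z : Ω)))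
  rw [hker, finrank_bot, zero_add, Module.finrank_fintype_fun_eq_card] at h1
  have hemb : Nonempty (Fin s ↪ I) := by
    refine Function.Embedding.nonempty_of_card_le ?_
    rw [Fintype.card_fin]
    omega
  obtain ⟨e⟩ := hemb
  have hpre : ∀ z : I, ∃ i, x i = z := fun z => hIsub z.2
  choose p hp using hpre
  refine ⟨fun i => p (e i), ?_⟩
  have h3 : (fun i => x (p (e i))) = fun i => ((e i : I) : Ω) := by
    funext i
    rw [hp]
  rw [h3]
  exact hIind.comp e e.injective

/-- the dimension from a surjectivity -/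
theorem le_finrank (x : V → Ω) {s : ℕ} (T : (V → Ω) →ₗ[Ω] (Fin s → Ω))
    (hT : ∀ w : Fin s → Ω, ∃ D : Derivation K Ω Ω, T (fun l => D (x l)) = w) :
    s ≤ Module.finrank Ω (LinearMap.range (ev (K := K) x)) := by
  have h1 : LinearMap.range (T.domRestrict (LinearMap.range (ev (K := K) x))) = ⊤ := by
    rw [LinearMap.range_eq_top]
    intro w
    obtain ⟨D, hD⟩ := hT w
    exact ⟨⟨ev (K := K) x D, D, rfl⟩, hD⟩
  have h2 := LinearMap.finrank_range_le (T.domRestrict (LinearMap.range (ev (K := K) x)))
  rw [h1, finrank_top, Module.finrank_fin_fun] at h2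
  exact h2

/-- the dimension from independent coordinates -/
theorem le_finrank_ind (x : V → Ω) {s : ℕ} (e : Fin s → V)
    (he : ∀ w : Fin s → Ω, ∃ D : Derivation K Ω Ω, ∀ i, D (x (e i)) = w i) :
    s ≤ Module.finrank Ω (LinearMap.range (ev (K := K) x)) := by
  refine le_finrank x (LinearMap.funLeft Ω Ω e) fun w => ?_
  obtain ⟨D, hD⟩ := he w
  exact ⟨D, funext fun i => hD i⟩

end

/-! ### The constants -/

section
variable (k : Type u) [Field k] {Ω : Type v} [Field Ω] [Algebra k Ω]

/-- the elements killed by the derivations which kill `c` -/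
noncomputable def kc {A : Type} (c : A → Ω) : IntermediateField k Ω where
  carrier := {z | ∀ D : Derivation k Ω Ω, (∀ α, D (c α) = 0) → D z = 0}
  mul_mem' := by
    intro x y hx hy D hD
    rw [Derivation.leibniz, hx D hD, hy D hD, smul_zero, smul_zero, add_zero]
  one_mem' := by
    intro D _
    rw [Derivation.map_one_eq_zero]
  add_mem' := by
    intro x y hx hy D hD
    rw [map_add, hx D hD, hy D hD, add_zero]
  zero_mem' := by
    intro D _
    rw [map_zero]
  algebraMap_mem' := by
    intro c D _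
    rw [Derivation.map_algebraMap]
  inv_mem' := by
    intro x hx D hD
    rw [Derivation.leibniz_inv, hx D hD, smul_zero]

variable {k}

theorem mem_kc {A : Type} {c : A → Ω} {z : Ω} :
    z ∈ kc k c ↔ ∀ D : Derivation k Ω Ω, (∀ α, D (c α) = 0) → D z = 0 := Iff.rfl

theorem kc_mem {A : Type} (c : A → Ω) (α : A) : c α ∈ kc k c := fun _ hD => hD α

theorem kc_closed [CharZero k] [IsAlgClosed Ω] {A : Type} (c : A → Ω) :
    IsAlgClosed (kc k c) := by
  have hc : CharZero Ω := charZero_of_injective_algebraMap (algebraMap k Ω).injective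
  rw [← IsAlgClosed.algebraicClosure_eq_bot_iff (kc k c) Ω, eq_bot_iff]
  intro z hz
  have hz' : IsAlgebraic (kc k c) z := mem_algebraicClosure_iff.1 hz
  rw [IntermediateField.mem_bot]
  refine ⟨⟨z, fun D hD => ?_⟩, rfl⟩
  exact (TDer.id D).alg (N := kc k c) (fun y hy => hy D hD) hz'

/-- a derivation which kills `c` is a derivation over the constants -/
noncomputable def der1 {A : Type} {c : A → Ω} (D : Derivation k Ω Ω) (hD : ∀ α, D (c α) = 0) :
    Derivation (kc k c) Ω Ω := Derivation.mk'
  { toFun := D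
    map_add' := fun x y => map_add D x y
    map_smul' := fun t x => by
      have h1 : D (t : Ω) = 0 := t.2 D hD
      show D (t • x) = t • D x
      rw [Algebra.smul_def, Algebra.smul_def, Derivation.leibniz]
      have h2 : D (algebraMap (kc k c) Ω t) = 0 := h1
      rw [h2, smul_zero, add_zero, smul_eq_mul] } (fun x y => D.leibniz x y)

theorem der1_apply {A : Type} {c : A → Ω} (D : Derivation k Ω Ω) (hD : ∀ α, D (c α) = 0)
    (z : Ω) : der1 D hD z = D z := rfl

end

theorem s_BAS : S_BAS.{u} := by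
  intro k _ _ Ω _ _ _ m c j₀ hj₀
  refine ⟨kc k c, kc_closed c, kc_mem c, fun V _ x => ?_⟩
  have h1 := rank_le (evD k x) (ev (K := k) (fun i : {i // i ≠ j₀} => c i.1))
  have h2 : Submodule.map (evD k x) (LinearMap.ker (ev (K := k) (fun i : {i // i ≠ j₀} => c i.1)))
      ≤ Tan (↥(kc k c)) x := by
    rintro _ ⟨D, hD, rfl⟩
    have hD' : ev (K := k) (fun i : {i // i ≠ j₀} => c i.1) D = 0 := hD
    have h3 : ∀ i, D (c i) = 0 := by
      intro i
      by_cases hi : i = j₀
      · rw [hi, hj₀, Derivation.map_one_eq_zero]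
      · exact congrFun hD' ⟨i, hi⟩
    exact ⟨der1 D h3, rfl⟩
  have h3 := Submodule.finrank_mono h2
  rw [Module.finrank_fintype_fun_eq_card, Fintype.card_subtype_compl,
    Fintype.card_subtype_eq, Fintype.card_fin] at h1
  have hm : 1 ≤ m := by
    have := j₀.2
    omega
  change Module.finrank Ω (Tan k x) ≤ _ at h1
  omega

theorem s_EXT : S_EXT.{u} := by
  intro K _ _ Ω _ _ Ω' _ _ _ _ V _ x
  obtain ⟨e, he⟩ := exists_ind (K := K) x (s := Module.finrank Ω (Tan K x)) le_rfl
  have h1 := he.map' (f := IsScalarTower.toAlgHom K Ω Ω') (algebraMap Ω Ω').injective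
  exact le_finrank_ind (K := K) (fun l => algebraMap Ω Ω' (x l)) e
    (fun w => Pool.Agent.H135R2.VS.exists_der h1 w)

theorem s_GEN : S_GEN.{u} := by
  intro k _ _ Ω _ _ Ω' _ _ _ _ _ κ t ht
  refine ⟨kc k t, kc_closed t, kc_mem t, fun V _ x => ?_⟩
  obtain ⟨e, he⟩ := exists_ind (K := k) x (s := Module.finrank Ω (Tan k x)) le_rfl
  have h1 := he.sumElim_comp ht
  refine le_finrank_ind (K := ↥(kc k t)) (fun l => algebraMap Ω Ω' (x l)) e (fun w => ?_)
  obtain ⟨D, hD⟩ := Pool.Agent.H135R2.VS.exists_der h1 (Sum.elim (fun _ => 0) w)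
  exact ⟨der1 D (fun α => hD (Sum.inl α)), fun i => hD (Sum.inr i)⟩

/-! ### The cone -/

section cone
variable {K : Type u} [Field K] {Ω : Type u} [Field Ω] [Algebra K Ω] {W : Type}

theorem hom_smul {A : Type v} [CommRing A] [Algebra K A] {f : MvPolynomial W K} {d : ℕ}
    (hf : f.IsHomogeneous d) (c : A) (x : W → A) :
    aeval (fun i => c * x i) f = c ^ d * aeval x f := by
  rw [aeval_def, aeval_def, eval₂_eq, eval₂_eq, Finset.mul_sum]
  refine Finset.sum_congr rfl fun s hs => ?_
  have h1 : ∑ i ∈ s.support, s i = d := by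
    have := hf (mem_support_iff.1 hs)
    rw [Finsupp.weight_apply, Finsupp.sum] at this
    simpa using this
  simp only [mul_pow, Finset.prod_mul_distrib, Finset.prod_pow_eq_pow_sum, h1]
  ring

theorem comp_eval (P : W → Ω) (f : MvPolynomial W K) (d : ℕ) :
    aeval (fun i => tau Ω * algebraMap Ω (MM Ω) (P i)) (homogeneousComponent d f) =
      tau Ω ^ d * algebraMap Ω (MM Ω) (aeval P (homogeneousComponent d f)) := by
  rw [hom_smul (homogeneousComponent_isHomogeneous d f)]
  congr 1
  exact aeval_algebraMap_apply (MM Ω) P _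

theorem cone_hom (P : W → Ω) : HomPt K (fun i => tau Ω * algebraMap Ω (MM Ω) (P i)) := by
  classical
  intro f d hf
  have h2 : aeval (fun i => tau Ω * algebraMap Ω (MM Ω) (P i)) f =
      Polynomial.aeval (tau Ω) (∑ d ∈ Finset.range (f.totalDegree + 1),
        Polynomial.monomial d (aeval P (homogeneousComponent d f))) := by
    conv_lhs => rw [← sum_homogeneousComponent f]
    rw [map_sum, map_sum]
    refine Finset.sum_congr rfl fun d _ => ?_
    rw [comp_eval, Polynomial.aeval_monomial, mul_comm]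
  rw [hf] at h2
  have h3 := (transcendental_iff.1 (tau_tr Ω)) _ h2.symm
  rw [comp_eval]
  by_cases hd : d < f.totalDegree + 1
  · have h4 := congrArg (fun q => Polynomial.coeff q d) h3
    simp only [Polynomial.finsetSum_coeff, Polynomial.coeff_monomial, Polynomial.coeff_zero] at h4
    rw [Finset.sum_ite_eq' (Finset.range (f.totalDegree + 1)) d] at h4
    rw [if_pos (Finset.mem_range.2 hd)] at h4
    rw [h4, map_zero, mul_zero]
  · rw [homogeneousComponent_eq_zero d f (by omega), map_zero, map_zero, mul_zero]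

end cone

theorem s_CONE : S_CONE.{u} := by
  intro K _ _ Ω _ _ V _ q
  refine ⟨MM Ω, inferInstance, inferInstance,
    fun o => tau Ω * algebraMap Ω (MM Ω) (o.elim (1 : Ω) q), cone_hom _, ?_, ?_⟩
  · obtain ⟨e, he⟩ := exists_ind (K := K) q (s := Module.finrank Ω (Tan K q)) le_rfl
    have hai : AlgebraicIndependent Ω (fun _ : Unit => tau Ω) :=
      (algebraicIndependent_unique_type_iff).2 (tau_tr Ω)
    have h1 := he.sumElim_comp hai
    let T : (Option V → MM Ω) →ₗ[MM Ω] (Fin (Module.finrank Ω (Tan K q) + 1) → MM Ω) :=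
      { toFun := fun w => Fin.cons (w none) (fun i => w (some (e i)))
        map_add' := fun w w' => by
          funext i
          refine Fin.cases ?_ (fun j => ?_) i
          · rfl
          · rfl
        map_smul' := fun c w => by
          funext i
          refine Fin.cases ?_ (fun j => ?_) i
          · rfl
          · rfl }
    refine le_finrank (K := K) _ T fun w => ?_
    have hτ : tau Ω ≠ 0 := tau_ne Ω
    obtain ⟨D, hD⟩ := Pool.Agent.H135R2.VS.exists_der h1 (Sum.elim (fun _ => w 0)
      (fun i => (w i.succ - algebraMap Ω (MM Ω) (q (e i)) * w 0) / tau Ω))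
    have hD0 : D (tau Ω) = w 0 := hD (Sum.inl ())
    have hD1 : ∀ i, D (algebraMap Ω (MM Ω) (q (e i))) =
        (w i.succ - algebraMap Ω (MM Ω) (q (e i)) * w 0) / tau Ω := fun i => hD (Sum.inr i)
    refine ⟨D, ?_⟩
    funext i
    refine Fin.cases ?_ (fun j => ?_) i
    · show D (tau Ω * algebraMap Ω (MM Ω) 1) = w 0
      rw [map_one, mul_one, hD0]
    · show D (tau Ω * algebraMap Ω (MM Ω) (q (e j))) = w j.succ
      rw [Derivation.leibniz, hD0, hD1, smul_eq_mul, smul_eq_mul, mul_div_cancel₀ _ hτ]
      ring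
  · intro f d hf h0
    have h1 := hom_smul (K := K) hf (tau Ω)
      (fun o : Option V => algebraMap Ω (MM Ω) (o.elim (1 : Ω) q))
    rw [h1]
    have h2 : aeval (fun o : Option V => algebraMap Ω (MM Ω) (o.elim (1 : Ω) q)) f =
        algebraMap Ω (MM Ω) (aeval (fun o : Option V => o.elim (1 : Ω) q) f) :=
      aeval_algebraMap_apply (MM Ω) _ _
    rw [h2, h0, map_zero, mul_zero]

end Pool.Agent.Helper45.BD
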